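import Pool.Agent.N89.HB.Stm

/-!
# Project HB (helper89): coverings which are irreducible but not geometrically irreducible
-/

set_option autoImplicit false

namespace Pool.Agent.N89.HB

open Polynomial NumberField Pool.Agent.N89.HX Pool.Agent.N89.HG

/-- NGA: if `h` is irreducible over `L(T)`, but not over `AlgebraicClosure L (T)`, then
`L(T)[X]/(h)` contains a constant `A(T, X)` which is not in `L`; `m` is its minimal polynomial -/
def S_NGA : Prop := ∀ (L : Type) [Field L] [NumberField L] (k e : ℕ)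
  (h : Fin (e + 1) → MvPolynomial (Fin k) (𝓞 L)), h (Fin.last e) ≠ 0 →
  Irreducible (gpol (RingHom.id (𝓞 L)) h) → ¬ Irreducible (gpol (toA L) h) →
  ∃ (m : L[X]) (A q : (Fr k (𝓞 L))[X]) (γ : L →+* Fr k (𝓞 L)), Irreducible m ∧ 2 ≤ m.natDegree ∧
    (∀ z : 𝓞 L, γ (z : L) = algebraMap (MvPolynomial (Fin k) (𝓞 L)) (Fr k (𝓞 L))
      (MvPolynomial.C z)) ∧
    (m.map γ).comp A = gpol (RingHom.id (𝓞 L)) h * q

/-- NGI: the rational points of an irreducible covering which is not geometrically irreducible lie over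
a proper closed subset -/
def S_NGI : Prop := ∀ (L : Type) [Field L] [NumberField L] (k e D : ℕ)
  (h : Fin (e + 1) → MvPolynomial (Fin k) (𝓞 L)), (∀ i, (h i).IsHomogeneous D) →
  h (Fin.last e) ≠ 0 → Irreducible (gpol (RingHom.id (𝓞 L)) h) →
  ¬ Irreducible (gpol (toA L) h) →
  ∃ (F : MvPolynomial (Fin k) (𝓞 L)) (D' : ℕ), F ≠ 0 ∧ F.IsHomogeneous D' ∧
    ∀ (t : Fin k → L) (x : L),
      ∑ i : Fin (e + 1), MvPolynomial.eval₂ (algebraMap (𝓞 L) L) t (h i) * x ^ (i : ℕ) = 0 →
      MvPolynomial.eval₂ (algebraMap (𝓞 L) L) t F = 0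

end Pool.Agent.N89.HB
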