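import Pool.Agent.N89.HB.Lft
import Pool.Agent.N89.HB.Stm2
import Pool.Agent.N89.HA.Fin

/-! Project HB (helper89): thin sets. -/

set_option autoImplicit false

namespace Pool.Agent.N89.HB

open MvPolynomial NumberField Pool.Agent.H901R3.MS Pool.Agent.W659 Pool.Agent.W659.SA
  Pool.Agent.N89.GS Pool.Agent.N89.BD Pool.Agent.N89.HX Pool.Agent.N89.HL WeierstrassCurve
  Pool.Agent.N89.HA
open Pool.Agent.N89.HG hiding ev

/-- the vectors `c` such that for some `S`-integral point `P` of `G` over `L` the vector `φ_c(P)` is in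
the set `A` -/
def BadZ {K L : Type} [Field K] [NumberField K] [Field L] [Algebra K L]
    {N r s n : ℕ} (ω : Module.Basis (Fin N) ℤ (𝓞 K)) (a b : Fin r → ℤ)
    (A : Set (Fin (n + 1) → L)) (Φ : Fin (n + 1) → Pol (𝓞 K) r s 0)
    {ι : Fin (n + 1) → Type} [∀ i, Fintype (ι i)] (Λ : (i : Fin (n + 1)) → ι i → Pol (𝓞 K) r s 0)
    (S : ℕ) : Set ((Σ i, ι i) × Fin N → ℤ) :=
  {c | ∃ (V : Fin r → Fin 3 → L) (u : Fin s → Lˣ), (∀ i, FD.OnE (a i) (b i) (V i)) ∧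
    (∀ l, u l ∈ SUn L S) ∧ zc (toL K L) Φ Λ V (fun l => ((u l : Lˣ) : L)) (vecJ ω c) ∈ A}

/-- the `t` such that `h(t; X)` has a root in `L` or its leading coefficient vanishes -/
def RootSet {L : Type} [Field L] {n e : ℕ} (h : Fin (e + 1) → MvPolynomial (Fin (n + 1)) (𝓞 L)) :
    Set (Fin (n + 1) → L) :=
  {t | Pool.Agent.N89.HG.ev (algebraMap (𝓞 L) L) h t (Fin.last e) = 0 ∨
    ∃ x : L, ∑ i, Pool.Agent.N89.HG.ev (algebraMap (𝓞 L) L) h t i * x ^ (i : ℕ) = 0}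

theorem no_rootG {L : Type} [Field L] {e : ℕ} (he : 2 ≤ e) {𝒢 : Subgroup (Equiv.Perm (Fin e))}
    (ht : ∀ i i', ∃ σ ∈ 𝒢, σ i = i') {f : Fin (e + 1) → L}
    (hf : Pool.Agent.N89.HG.GalIs f 𝒢) :
    ¬ (f (Fin.last e) = 0 ∨ ∃ x : L, ∑ i, f i * x ^ (i : ℕ) = 0) := by
  obtain ⟨x, ⟨h1, h2, h3⟩, h4⟩ := hf
  rintro (h | ⟨y, hy⟩)
  · exact h1 h
  have h5 := congrArg (Polynomial.eval (algebraMap L (AlgebraicClosure L) y)) h3
  rw [Polynomial.eval_map_algebraMap, Polynomial.aeval_algebraMap_apply, Polynomial.eval_mul,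
    Polynomial.eval_C, Polynomial.eval_prod] at h5
  have h6 : Polynomial.aeval y (pol f) = 0 := by
    rw [← hy]
    simp [pol, Polynomial.aeval_def]
  rw [h6, map_zero] at h5
  rcases mul_eq_zero.1 h5.symm with h7 | h7
  · exact h1 ((map_eq_zero _).1 h7)
  obtain ⟨i, -, hi⟩ := Finset.prod_eq_zero_iff.1 h7
  rw [Polynomial.eval_sub, Polynomial.eval_X, Polynomial.eval_C, sub_eq_zero] at hi
  obtain ⟨j, hj⟩ : ∃ j : Fin e, j ≠ i := by
    have : Nontrivial (Fin e) := Fin.nontrivial_iff_two_le.2 he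
    exact exists_ne i
  obtain ⟨σ, hσ, hσi⟩ := ht i j
  obtain ⟨τ, hτ⟩ := (h4 σ).1 hσ
  have h8 := hτ i
  rw [hσi, ← hi, AlgEquiv.commutes, hi] at h8
  exact hj (h2 h8).symm

/-- points over `L` are points over `L'` -/
theorem badZ_sub {K L L' : Type} [Field K] [NumberField K] [Field L] [NumberField L] [Field L']
    [NumberField L'] [Algebra K L] [Algebra K L'] [Algebra L L']
    (hKL : algebraMap K L' = (algebraMap L L').comp (algebraMap K L))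
    {N r s n e : ℕ} (he : 2 ≤ e) (ω : Module.Basis (Fin N) ℤ (𝓞 K)) (a b : Fin r → ℤ)
    (h : Fin (e + 1) → MvPolynomial (Fin (n + 1)) (𝓞 L)) (𝒢 : Subgroup (Equiv.Perm (Fin e)))
    (ht : ∀ i i', ∃ σ ∈ 𝒢, σ i = i')
    (Φ : Fin (n + 1) → Pol (𝓞 K) r s 0)
    {ι : Fin (n + 1) → Type} [∀ i, Fintype (ι i)] (Λ : (i : Fin (n + 1)) → ι i → Pol (𝓞 K) r s 0)
    (S : ℕ) :
    BadZ ω a b (RootSet h) Φ Λ S ⊆
      BadHA ω a b (fun i => MvPolynomial.map (algebraMap (𝓞 L) (𝓞 L')) (h i)) 𝒢 Φ Λ S := by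
  rintro c ⟨V, u, hV, hu, hc⟩
  set ψ : L →+* L' := algebraMap L L' with hψ
  refine ⟨fun i j => ψ (V i j), fun l => Units.map (ψ : L →* L') (u l), fun i => ?_, fun l => ?_, ?_⟩
  · obtain ⟨h1, h2⟩ := hV i
    refine ⟨?_, ?_⟩
    · intro h3
      apply h1
      funext j
      have h4 := congrFun h3 j
      exact (map_eq_zero ψ).1 h4
    · have h4 := congrArg ψ h2
      simpa using h4
  · obtain ⟨m, h1, h2⟩ := hu l
    refine ⟨m, ?_, ?_⟩
    · have h3 := h1.map (ψ : L →+* L').toIntAlgHom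
      simpa using h3
    · have h3 := h2.map (ψ : L →+* L').toIntAlgHom
      simpa using h3
  · intro hgal
    have hz : zc (toL K L') Φ Λ (fun i j => ψ (V i j))
        (fun l => ((Units.map (ψ : L →* L') (u l) : L'ˣ) : L')) (vecJ ω c) =
        fun i => ψ (zc (toL K L) Φ Λ V (fun l => ((u l : Lˣ) : L)) (vecJ ω c) i) := by
      have hto : toL K L' = ψ.comp (toL K L) := by
        unfold toL
        rw [hKL]
        rfl
      funext i
      unfold zc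
      rw [map_add, map_sum, vl_map, hto]
      have e0 : (fun i : Fin 0 => ψ (Fin.elim0 i : L)) = (Fin.elim0 : Fin 0 → L') := by
        funext i
        exact i.elim0
      congr 1
      · congr 1
        · exact (Subsingleton.elim _ _)
      · refine Finset.sum_congr rfl fun x _ => ?_
        rw [map_mul, vl_map]
        congr 1
        · congr 1
          exact (Subsingleton.elim _ _)
    rw [hz] at hgal
    set t := zc (toL K L) Φ Λ V (fun l => ((u l : Lˣ) : L)) (vecJ ω c) with htd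
    have hev : ∀ i, Pool.Agent.N89.HG.ev (algebraMap (𝓞 L') L')
        (fun i => MvPolynomial.map (algebraMap (𝓞 L) (𝓞 L')) (h i)) (fun i => ψ (t i)) i =
        ψ (Pool.Agent.N89.HG.ev (algebraMap (𝓞 L) L) h t i) := by
      intro i
      unfold Pool.Agent.N89.HG.ev
      rw [eval₂_map, hom_eval₂]
      rfl
    apply no_rootG he ht hgal
    rcases hc with hc | ⟨x, hx⟩
    · left
      rw [hev, hc, map_zero]
    · right
      refine ⟨ψ x, ?_⟩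
      have h4 := congrArg ψ hx
      rw [map_sum, map_zero] at h4
      rw [← h4]
      refine Finset.sum_congr rfl fun i _ => ?_
      rw [hev, map_mul, map_pow]

/-- the conclusion: few `c` are in `B` -/
def Few {J : Type} [Fintype J] {N : ℕ} (B : Set (J × Fin N → ℤ)) : Prop :=
  ∃ c₀ : ℝ, 0 < c₀ ∧ ∃ H₀ : ℕ, ∀ H : ℕ, H₀ ≤ H →
    (({c : J × Fin N → ℤ | (∀ i, |c i| ≤ (H : ℤ)) ∧ c ∈ B}.ncard : ℕ) : ℝ) ≤
      (2 * (H : ℝ) + 1) ^ (Fintype.card J * N) *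
        Real.exp (-c₀ * (Real.log H / Real.log (Real.log H)))

theorem Few.mono {J : Type} [Fintype J] {N : ℕ} {B B' : Set (J × Fin N → ℤ)} (h : B ⊆ B')
    (hB : Few B') : Few B := by
  obtain ⟨c, hc, H₀, h1⟩ := hB
  refine ⟨c, hc, H₀, fun H hH => le_trans ?_ (h1 H hH)⟩
  have h2 : {c : J × Fin N → ℤ | (∀ i, |c i| ≤ (H : ℤ)) ∧ c ∈ B}.ncard ≤
      {c : J × Fin N → ℤ | (∀ i, |c i| ≤ (H : ℤ)) ∧ c ∈ B'}.ncard :=
    Set.ncard_le_ncard (fun x hx => ⟨hx.1, h hx.2⟩) ((boxJ_finite H).subset fun x hx => hx.1)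
  exact_mod_cast h2

theorem cmp_ntr {K L : Type} [Field K] [Field L] [Algebra K L] [Algebra.IsAlgebraic K L]
    (h : ∃ (τ : K →+* ℂ) (x : K), (τ x).im ≠ 0) : Cmp K L := by
  obtain ⟨τ, x, hx⟩ := h
  let _ : Algebra K ℂ := τ.toAlgebra
  let f : L →ₐ[K] ℂ := IsAlgClosed.lift
  refine ⟨f, Or.inr ⟨x, ?_⟩⟩
  have h1 : (f : L →+* ℂ) (algebraMap K L x) = τ x := f.commutes x
  rw [h1]
  exact hx

theorem geoPart (hCEX : S_CEX) (hBRT : S_BRT)
    (K L : Type) [Field K] [NumberField K] [Field L] [NumberField L] [Algebra K L]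
    (hK : ∃ (τ : K →+* ℂ) (x : K), (τ x).im ≠ 0) (N : ℕ) (ω : Module.Basis (Fin N) ℤ (𝓞 K))
    (r s n e D : ℕ) (he : 2 ≤ e) (a b : Fin r → ℤ) (hab : ∀ i, a i * b i = 0 ∧ (a i ≠ 0 ∨ b i ≠ 0))
    (h : Fin (e + 1) → MvPolynomial (Fin (n + 1)) (𝓞 L)) (hh : ∀ i, (h i).IsHomogeneous D)
    (hl : h (Fin.last e) ≠ 0) (hirr : Irreducible (gpol (toA L) h))
    (σ₀ : K →+* ℂ) (Φ : Fin (n + 1) → Pol (𝓞 K) r s 0)
    (ι : Fin (n + 1) → Type) [∀ i, Fintype (ι i)] (Λ : (i : Fin (n + 1)) → ι i → Pol (𝓞 K) r s 0)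
    (d : Fin r → ℕ) (hdΦ : ∀ i, MHomog (Φ i) d) (hdΛ : ∀ i x, MHomog (Λ i x) d)
    (hbp : ∀ i (V : Fin r → Fin 3 → ℂ) (u : Fin s → ℂ), OnB a b V u →
      ∃ x, vl (toC σ₀) (Λ i x) V u Fin.elim0 ≠ 0) (S : ℕ) (hS : 1 ≤ S) :
    Few (BadZ ω a b (RootSet h) Φ Λ S) := by
  classical
  obtain ⟨L', _, _, _, j, 𝒢, htr, ⟨x, hx, hx'⟩, ⟨z, hz, hz'⟩⟩ :=
    hCEX L (n + 1) e h (by omega) hl hirr
  have : Fintype 𝒢 := Fintype.ofFinite _
  obtain ⟨R⟩ := Pool.Agent.N441.HG.main L' (n + 1) e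
    (fun i => MvPolynomial.map (algebraMap (𝓞 L) (𝓞 L')) (h i)) 𝒢 x hx hx'
  obtain ⟨Di, hDi⟩ := Pool.Agent.N953.HG.main e
  obtain ⟨ρ⟩ : Nonempty (L →+* ℂ) := inferInstance
  let _ : Algebra L ℂ := ρ.toAlgebra
  let τ' : AlgebraicClosure L →ₐ[L] ℂ := IsAlgClosed.lift
  let τ : AlgebraicClosure L →+* ℂ := τ'
  set φ : 𝓞 L' →+* AlgebraicClosure L := (j : L' →+* AlgebraicClosure L).comp
    (algebraMap (𝓞 L') L') with hφ
  have hcomp : φ.comp (algebraMap (𝓞 L) (𝓞 L')) = toA L := by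
    refine RingHom.ext fun y => ?_
    have h1 : algebraMap (𝓞 L') L' (algebraMap (𝓞 L) (𝓞 L') y) =
        algebraMap L L' (algebraMap (𝓞 L) L y) := rfl
    show (j : L' →+* AlgebraicClosure L) (algebraMap (𝓞 L') L' (algebraMap (𝓞 L) (𝓞 L') y)) =
      algebraMap L (AlgebraicClosure L) (algebraMap (𝓞 L) L y)
    rw [h1]
    exact j.commutes _
  have hC : CndG (τ.comp φ) R Di := by
    refine cnd_geo hBRT _ 𝒢 R Di φ τ z hDi ?_ hz'
    simp only [MvPolynomial.map_map, hcomp]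
    exact hz
  let _ : Algebra K L' := ((algebraMap L L').comp (algebraMap K L)).toAlgebra
  have hKL : algebraMap K L' = (algebraMap L L').comp (algebraMap K L) := rfl
  have : Algebra.IsAlgebraic K L' := Algebra.IsAlgebraic.tower_top (K := ℚ) (L := K) (A := L')
  have hcmp : Cmp K L' := cmp_ntr hK
  have hm := mainHA Pool.Agent.N42.HG.TRG.main
    (Pool.Agent.N433.HG.main Pool.Agent.N136.HG.ONEG.main) Pool.Agent.N712.GS.mainLIN1
    Pool.Agent.N519.BD.TSA.main Pool.Agent.N46.HG.FRBG.main Pool.Agent.N195.HG.SCL.main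
    Pool.Agent.N768.HG.GRPG.main Pool.Agent.N403.BDSUF.main K L' hcmp N ω r s n e D
    a b hab (fun i => MvPolynomial.map (algebraMap (𝓞 L) (𝓞 L')) (h i))
    (fun i => (hh i).map _) 𝒢 R Di hDi (τ.comp (j : L' →+* AlgebraicClosure L)) hC σ₀ Φ ι Λ d
    hdΦ hdΛ hbp S hS
  exact Few.mono (badZ_sub hKL he ω a b h 𝒢 htr Φ Λ S) hm

/-- the zero set of `F` -/
def ZeroSet {L : Type} [Field L] {n : ℕ} (F : MvPolynomial (Fin (n + 1)) (𝓞 L)) :
    Set (Fin (n + 1) → L) :=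
  {t | MvPolynomial.eval₂ (algebraMap (𝓞 L) L) t F = 0}

theorem zeroPart (hCEX : S_CEX) (hBRT : S_BRT) (hQIR : S_QIR)
    (K L : Type) [Field K] [NumberField K] [Field L] [NumberField L] [Algebra K L]
    (hK : ∃ (τ : K →+* ℂ) (x : K), (τ x).im ≠ 0) (N : ℕ) (ω : Module.Basis (Fin N) ℤ (𝓞 K))
    (r s n D : ℕ) (hn : 1 ≤ n) (a b : Fin r → ℤ)
    (hab : ∀ i, a i * b i = 0 ∧ (a i ≠ 0 ∨ b i ≠ 0))
    (F : MvPolynomial (Fin (n + 1)) (𝓞 L)) (hF : F.IsHomogeneous D) (hF0 : F ≠ 0)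
    (σ₀ : K →+* ℂ) (Φ : Fin (n + 1) → Pol (𝓞 K) r s 0)
    (ι : Fin (n + 1) → Type) [∀ i, Fintype (ι i)] (Λ : (i : Fin (n + 1)) → ι i → Pol (𝓞 K) r s 0)
    (d : Fin r → ℕ) (hdΦ : ∀ i, MHomog (Φ i) d) (hdΛ : ∀ i x, MHomog (Λ i x) d)
    (hbp : ∀ i (V : Fin r → Fin 3 → ℂ) (u : Fin s → ℂ), OnB a b V u →
      ∃ x, vl (toC σ₀) (Λ i x) V u Fin.elim0 ≠ 0) (S : ℕ) (hS : 1 ≤ S) :
    Few (BadZ ω a b (ZeroSet F) Φ Λ S) := by
  classical
  obtain ⟨m, rfl⟩ : ∃ m, n = m + 1 := ⟨n - 1, by omega⟩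
  set h : Fin (2 + 1) → MvPolynomial (Fin (m + 2)) (𝓞 L) :=
    ![- (F * X 1), 0, F * X 0] with hh
  have hX : (X 0 : MvPolynomial (Fin (m + 2)) (𝓞 L)) ≠ 0 := X_ne_zero 0
  have hhom : ∀ i, (h i).IsHomogeneous (D + 1) := by
    intro i
    fin_cases i
    · exact ((hF.mul (isHomogeneous_X _ 1)).neg)
    · exact isHomogeneous_zero _ _ _
    · exact hF.mul (isHomogeneous_X _ 0)
  have hlast : h (Fin.last 2) ≠ 0 := mul_ne_zero hF0 hX
  have hinj : Function.Injective (toA L) := by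
    unfold toA
    exact (algebraMap L (AlgebraicClosure L)).injective.comp RingOfIntegers.coe_injective
  have hF1 : MvPolynomial.map (toA L) F ≠ 0 := by
    intro h1
    exact hF0 (MvPolynomial.map_injective _ hinj (h1.trans (map_zero _).symm))
  have hirr : Irreducible (gpol (toA L) h) := by
    have h1 := hQIR (AlgebraicClosure L) m (MvPolynomial.map (toA L) F) hF1
    have h2 : gpol (toA L) h = gpol (RingHom.id (AlgebraicClosure L))
        (![- (MvPolynomial.map (toA L) F * X 1), 0, MvPolynomial.map (toA L) F * X 0] :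
          Fin (2 + 1) → MvPolynomial (Fin (m + 2)) (AlgebraicClosure L)) := by
      unfold gpol
      refine Finset.sum_congr rfl fun i _ => ?_
      congr 3
      fin_cases i
      · simp [hh, MvPolynomial.map_id]
      · simp [hh]
      · simp [hh, MvPolynomial.map_id]
    rw [h2]
    exact h1
  refine Few.mono ?_ (geoPart hCEX hBRT K L hK N ω r s (m + 1) 2 (D + 1) le_rfl a b hab h hhom hlast
    hirr σ₀ Φ ι Λ d hdΦ hdΛ hbp S hS)
  rintro c ⟨V, u, h1, h2, h3⟩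
  refine ⟨V, u, h1, h2, Or.inl ?_⟩
  show MvPolynomial.eval₂ (algebraMap (𝓞 L) L) _ (F * X 0) = 0
  rw [eval₂_mul]
  have h4 : MvPolynomial.eval₂ (algebraMap (𝓞 L) L) (zc (toL K L) Φ Λ V
    (fun l => ((u l : Lˣ) : L)) (vecJ ω c)) F = 0 := h3
  rw [h4, zero_mul]

/-- irreducible coverings -/
theorem irrPart (hCEX : S_CEX) (hBRT : S_BRT) (hQIR : S_QIR) (hNGI : S_NGI)
    (K L : Type) [Field K] [NumberField K] [Field L] [NumberField L] [Algebra K L]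
    (hK : ∃ (τ : K →+* ℂ) (x : K), (τ x).im ≠ 0) (N : ℕ) (ω : Module.Basis (Fin N) ℤ (𝓞 K))
    (r s n e D : ℕ) (hn : 1 ≤ n) (he : 2 ≤ e) (a b : Fin r → ℤ)
    (hab : ∀ i, a i * b i = 0 ∧ (a i ≠ 0 ∨ b i ≠ 0))
    (h : Fin (e + 1) → MvPolynomial (Fin (n + 1)) (𝓞 L)) (hh : ∀ i, (h i).IsHomogeneous D)
    (hl : h (Fin.last e) ≠ 0) (hirr : Irreducible (gpol (RingHom.id (𝓞 L)) h))
    (σ₀ : K →+* ℂ) (Φ : Fin (n + 1) → Pol (𝓞 K) r s 0)
    (ι : Fin (n + 1) → Type) [∀ i, Fintype (ι i)] (Λ : (i : Fin (n + 1)) → ι i → Pol (𝓞 K) r s 0)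
    (d : Fin r → ℕ) (hdΦ : ∀ i, MHomog (Φ i) d) (hdΛ : ∀ i x, MHomog (Λ i x) d)
    (hbp : ∀ i (V : Fin r → Fin 3 → ℂ) (u : Fin s → ℂ), OnB a b V u →
      ∃ x, vl (toC σ₀) (Λ i x) V u Fin.elim0 ≠ 0) (S : ℕ) (hS : 1 ≤ S) :
    Few (BadZ ω a b {t | ∃ x : L, ∑ i, Pool.Agent.N89.HG.ev (algebraMap (𝓞 L) L) h t i * x ^ (i : ℕ) = 0}
      Φ Λ S) := by
  classical
  by_cases hg : Irreducible (gpol (toA L) h)
  · refine Few.mono ?_ (geoPart hCEX hBRT K L hK N ω r s n e D he a b hab h hh hl hg σ₀ Φ ι Λ d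
      hdΦ hdΛ hbp S hS)
    rintro c ⟨V, u, h1, h2, h3⟩
    exact ⟨V, u, h1, h2, Or.inr h3⟩
  · obtain ⟨F, D', hF0, hF, hsub⟩ := hNGI L (n + 1) e D h hh hl hirr hg
    refine Few.mono ?_ (zeroPart hCEX hBRT hQIR K L hK N ω r s n D' hn a b hab F hF hF0 σ₀ Φ ι Λ d
      hdΦ hdΛ hbp S hS)
    rintro c ⟨V, u, h1, h2, x, h3⟩
    exact ⟨V, u, h1, h2, hsub _ x h3⟩

end Pool.Agent.N89.HB
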