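import Pool.Agent.N89.HB.Stm
import Pool.Agent.N595.HG.GEOG

/-!
# HB/GEO2: the resolvent is irreducible over `M(T_1, …, T_k)` (helper89)
-/

set_option autoImplicit false

namespace Pool.Agent.N89.HB

open Polynomial NumberField Pool.Agent.N89.HX Pool.Agent.N89.HG Pool.Agent.N362.HX
  Pool.Agent.N595.HG

theorem map_eq_eval₂ {O M : Type} [CommRing O] [CommRing M] {k : ℕ} (φ : O →+* M)
    (p : MvPolynomial (Fin k) O) : MvPolynomial.map φ p =
      MvPolynomial.eval₂ ((MvPolynomial.C : M →+* MvPolynomial (Fin k) M).comp φ) MvPolynomial.X p := by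
  have h : (MvPolynomial.map φ : MvPolynomial (Fin k) O →+* _) = MvPolynomial.eval₂Hom
      ((MvPolynomial.C : M →+* MvPolynomial (Fin k) M).comp φ) MvPolynomial.X :=
    MvPolynomial.ringHom_ext (by simp) (by simp)
  exact RingHom.congr_fun h p

theorem geo2 {O : Type} [CommRing O] (M : Type) [Field M] [CharZero M] {k e : ℕ}
    (h : Fin (e + 1) → MvPolynomial (Fin k) O) (𝒢 : Subgroup (Equiv.Perm (Fin e))) [Fintype 𝒢]
    (R : RG h 𝒢) (D : MvPolynomial (Fin (e + 1)) ℤ) (φ : O →+* M)
    (x : Fin e → AlgebraicClosure (Fr k M)) (hD : IsDisc D)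
    (hroots : Roots (algebraMap (Fr k M) (AlgebraicClosure (Fr k M)))
      (fun i => algebraMap (MvPolynomial (Fin k) M) (Fr k M) (MvPolynomial.map φ (h i))) x)
    (hgal : ∀ σ ∈ 𝒢, ∃ τ : ClAut (Fr k M), ∀ i, τ (x i) = x (σ i)) :
    MvPolynomial.aeval (Pool.Agent.N89.HG.ev
      ((MvPolynomial.C : M →+* MvPolynomial (Fin k) M).comp φ) h
      MvPolynomial.X) D ≠ 0 ∧
    ∃ ω : Fin e → M, Irreducible
      ((rg ((MvPolynomial.C : M →+* MvPolynomial (Fin k) M).comp φ) R.R MvPolynomial.X
        (fun i => MvPolynomial.C (ω i))).map (algebraMap (MvPolynomial (Fin k) M) (Fr k M))) := by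
  classical
  set Φ : O →+* MvPolynomial (Fin k) M := (MvPolynomial.C : M →+* MvPolynomial (Fin k) M).comp φ
    with hΦ
  set α : MvPolynomial (Fin k) M →+* Fr k M := algebraMap (MvPolynomial (Fin k) M) (Fr k M) with hα
  set ψ : Fr k M →+* AlgebraicClosure (Fr k M) :=
    algebraMap (Fr k M) (AlgebraicClosure (Fr k M)) with hψ
  have hmap : ∀ i, MvPolynomial.map φ (h i) = Pool.Agent.N89.HG.ev Φ h MvPolynomial.X i := by
    intro i
    exact map_eq_eval₂ φ (h i)
  simp only [hmap] at hroots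
  set f : Fin (e + 1) → Fr k M := fun i => α (Pool.Agent.N89.HG.ev Φ h MvPolynomial.X i) with hf
  obtain ⟨h0, hinj, hpol⟩ := hroots
  set a := f (Fin.last e) with ha
  have ha0 : ψ a ≠ 0 := by
    intro h
    exact h0 ((map_eq_zero ψ).1 h)
  rw [pol_map] at hpol
  have hmono := mono_eq' (fun i => ψ (f i)) x ha0 hpol
  set W : Fin e → AlgebraicClosure (Fr k M) := fun i => ψ a * x i with hW
  have hWinj : Function.Injective W := fun i j hij => hinj (mul_left_cancel₀ ha0 hij)
  constructor
  · intro h1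
    have h2 := (hD _ (fun i => ψ (f i)) W hmono).1 (aeval_zero (ψ.comp α) _ D h1)
    rcases h2 with h4 | h4
    · exact ha0 h4
    · exact h4 hWinj
  · obtain ⟨W', hadm, hres⟩ := R.spec (AlgebraicClosure (Fr k M)) ((ψ.comp α).comp Φ)
      (fun j => (ψ.comp α) (MvPolynomial.X j))
    have hev : Pool.Agent.N89.HG.ev ((ψ.comp α).comp Φ) h
        (fun j => (ψ.comp α) (MvPolynomial.X j)) = fun i => ψ (f i) := by
      funext i
      rw [← ev_map]
      rfl
    rw [hev, hmono] at hadm
    obtain ⟨ρ, hρ⟩ := perm_of_prod W W' hWinj hadm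
    have hW'inj : Function.Injective W' := by
      intro i j hij
      rw [hρ, hρ] at hij
      exact ρ.injective (hWinj hij)
    let κ : M →+* AlgebraicClosure (Fr k M) := (ψ.comp α).comp MvPolynomial.C
    let _ : Algebra M (AlgebraicClosure (Fr k M)) := κ.toAlgebra
    have : Infinite M := inferInstance
    obtain ⟨ω, hω⟩ := exists_sep (k := M) W' hW'inj
    refine ⟨ω, ?_⟩
    rw [rg_map]
    have hm0 : (R.m : AlgebraicClosure (Fr k M)) ≠ 0 := by
      have : CharZero (AlgebraicClosure (Fr k M)) :=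
        charZero_of_injective_ringHom κ.injective
      exact_mod_cast R.m_ne
    set θ : Equiv.Perm (Fin e) → AlgebraicClosure (Fr k M) :=
      fun τ => ∑ i, ψ (α (MvPolynomial.C (ω i))) * ((R.m : AlgebraicClosure (Fr k M)) * W' (τ i))
      with hθ
    have hθinj : Function.Injective θ := by
      intro τ τ' h1
      apply hω
      have h2 : ∀ τ : Equiv.Perm (Fin e), θ τ = (R.m : AlgebraicClosure (Fr k M)) *
          ∑ i, κ (ω i) * W' (τ i) := by
        intro τ
        rw [hθ, Finset.mul_sum]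
        refine Finset.sum_congr rfl fun i _ => ?_
        show ψ (α (MvPolynomial.C (ω i))) * _ = _ * (ψ (α (MvPolynomial.C (ω i))) * _)
        ring
      rw [h2, h2] at h1
      exact mul_left_cancel₀ hm0 h1
    refine irr_field 𝒢 _ (rg_monic _ _ _ _).1 (rg_monic _ _ _ _).2 θ hθinj ?_ ρ ?_
    · rw [rg_map]
      have := hres (fun i => ψ (α (MvPolynomial.C (ω i))))
      rw [hθ]
      exact this
    · intro σ hσ
      obtain ⟨g, hg⟩ := hgal σ hσ
      refine ⟨g, fun τ => ?_⟩
      have h1 : ∀ i, g (W' i) = W' ((ρ⁻¹ * σ * ρ) i) := by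
        intro i
        rw [hρ, hρ]
        simp only [hW, map_mul, Equiv.Perm.mul_apply]
        rw [hψ, AlgEquiv.commutes, hg]
        congr 2
        simp
      rw [hθ]
      simp only [map_sum, map_mul]
      refine Finset.sum_congr rfl fun i _ => ?_
      rw [hψ, AlgEquiv.commutes, map_natCast, h1]
      rfl

end Pool.Agent.N89.HB
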