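import Pool.Agent.N89.HB.Geo
import Pool.Agent.N89.HG.Asm
import Pool.Agent.R410.LW.BN1

/-!
# HB/LFT: from `AlgebraicClosure L` to `ℂ` (helper89)
-/

set_option autoImplicit false

namespace Pool.Agent.N89.HB

open Polynomial NumberField Pool.Agent.N89.HX Pool.Agent.N89.HG Pool.Agent.N595.HG

theorem lift_irr {M : Type} [Field M] [IsAlgClosed M] (f : M[X][X]) (hf : f.Monic)
    (h0 : 0 < f.natDegree) (hirr : Irreducible f) (F : Type) [Field F] (φ : M →+* F) :
    Irreducible (f.map (mapRingHom φ)) := by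
  have h1 : f.map (mapRingHom ((algebraMap M M).comp (algebraMap M M))) = f := by
    have : mapRingHom ((algebraMap M M).comp (algebraMap M M)) = RingHom.id (M[X]) := by
      ext <;> simp
    rw [this, Polynomial.map_id]
  obtain ⟨D, hD, h⟩ := Pool.Agent.R410.LW.bn_poly (A := M) (k := M) (kb := M) f hf h0
    (by rw [h1]; exact hirr)
  exact h F φ (by rw [Ne, map_eq_zero]; exact hD)

theorem aeval_hom {A B : Type} [CommRing A] [CommRing B] (κ : A →+* B) {n : ℕ}
    (f : Fin n → A) (D : MvPolynomial (Fin n) ℤ) :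
    κ (MvPolynomial.aeval f D) = MvPolynomial.aeval (fun i => κ (f i)) D := by
  have h : κ.comp ((MvPolynomial.aeval f : MvPolynomial (Fin n) ℤ →ₐ[ℤ] A) :
      MvPolynomial (Fin n) ℤ →+* A) =
      ((MvPolynomial.aeval (fun i => κ (f i)) : MvPolynomial (Fin n) ℤ →ₐ[ℤ] B) :
      MvPolynomial (Fin n) ℤ →+* B) := by
    apply MvPolynomial.ringHom_ext
    · intro r
      simp
    · intro i
      simp
  exact RingHom.congr_fun h D

theorem aeval_ne {A B : Type} [CommRing A] [CommRing B] (κ : A →+* B)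
    (hκ : Function.Injective κ) {n : ℕ}
    (f : Fin n → A) (D : MvPolynomial (Fin n) ℤ) (h : MvPolynomial.aeval f D ≠ 0) :
    MvPolynomial.aeval (fun i => κ (f i)) D ≠ 0 := by
  rw [← aeval_hom]
  intro h3
  exact h (hκ (h3.trans (map_zero κ).symm))

theorem cnd_lift {O M : Type} [CommRing O] [Field M] [IsAlgClosed M] {k e : ℕ}
    {h : Fin (e + 1) → MvPolynomial (Fin k) O} {𝒢 : Subgroup (Equiv.Perm (Fin e))} [Fintype 𝒢]
    (R : RG h 𝒢) (D : MvPolynomial (Fin (e + 1)) ℤ) (g : O →+* M) (τ : M →+* ℂ)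
    (y v : Fin k → M) (ω : Fin e → M)
    (h1 : MvPolynomial.aeval (Pool.Agent.N89.HG.ev ((C : M →+* M[X]).comp g) h (pt y v)) D ≠ 0)
    (h2 : Irreducible (rg ((C : M →+* M[X]).comp g) R.R (pt y v) (fun i => C (ω i)))) :
    CndG (τ.comp g) R D := by
  classical
  have hc : (mapRingHom τ).comp ((C : M →+* M[X]).comp g) =
      (C : ℂ →+* ℂ[X]).comp (τ.comp g) := by
    ext x <;> simp
  have hp : (fun j => mapRingHom τ (pt y v j)) = pt (fun j => τ (y j)) (fun j => τ (v j)) := by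
    funext j
    simp [pt]
  have hinj : Function.Injective (mapRingHom τ) := by
    rw [coe_mapRingHom]
    exact map_injective τ τ.injective
  refine ⟨fun j => τ (y j), fun j => τ (v j), fun j => τ (ω j), ?_, ?_⟩
  · have h3 := aeval_ne (mapRingHom τ) hinj _ D h1
    have h4 : (fun i => mapRingHom τ (Pool.Agent.N89.HG.ev ((C : M →+* M[X]).comp g) h (pt y v) i)) =
        Pool.Agent.N89.HG.ev ((C : ℂ →+* ℂ[X]).comp (τ.comp g)) h
          (pt (fun j => τ (y j)) (fun j => τ (v j))) := by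
      funext i
      rw [ev_map, hc, hp]
    rw [h4] at h3
    exact h3
  · have h3 := lift_irr _ (rg_monic _ _ _ _).1 (by
      rw [(rg_monic _ _ _ _).2]; exact Fintype.card_pos) h2 ℂ τ
    rw [rg_map, hc, hp] at h3
    have h4 : (fun j => mapRingHom τ (C (ω j))) = fun j => C (τ (ω j)) := by
      funext j
      simp
    rw [h4] at h3
    exact h3

/-- the condition for the sieve, from the geometric Galois group -/
theorem cnd_geo (hBRT : S_BRT) {O M : Type} [CommRing O] [Field M] [IsAlgClosed M] [CharZero M]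
    {n e : ℕ}
    (h : Fin (e + 1) → MvPolynomial (Fin (n + 1)) O) (𝒢 : Subgroup (Equiv.Perm (Fin e))) [Fintype 𝒢]
    (R : RG h 𝒢) (D : MvPolynomial (Fin (e + 1)) ℤ) (φ : O →+* M) (τ : M →+* ℂ)
    (x : Fin e → AlgebraicClosure (Fr (n + 1) M)) (hD : IsDisc D)
    (hroots : Roots (algebraMap (Fr (n + 1) M) (AlgebraicClosure (Fr (n + 1) M)))
      (fun i => algebraMap (MvPolynomial (Fin (n + 1)) M) (Fr (n + 1) M)
        (MvPolynomial.map φ (h i))) x)
    (hgal : ∀ σ ∈ 𝒢, ∃ τ : ClAut (Fr (n + 1) M), ∀ i, τ (x i) = x (σ i)) :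
    CndG (τ.comp φ) R D := by
  classical
  obtain ⟨h1, ω, h2⟩ := geo2 M h 𝒢 R D φ x hD hroots hgal
  obtain ⟨y, v, h3, h4⟩ := hBRT M n _ (rg_monic _ _ _ _).1 h2 _ h1
  set κ : MvPolynomial (Fin (n + 1)) M →+* M[X] := ((MvPolynomial.aeval (pt y v) :
      MvPolynomial (Fin (n + 1)) M →ₐ[M] M[X]) : MvPolynomial (Fin (n + 1)) M →+* M[X]) with hκ
  have hc : κ.comp ((MvPolynomial.C : M →+* MvPolynomial (Fin (n + 1)) M).comp φ) =
      (C : M →+* M[X]).comp φ := by
    refine RingHom.ext fun x => ?_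
    simp [hκ]
  have hx : (fun j => κ (MvPolynomial.X j)) = pt y v := by
    funext j
    simp [hκ]
  refine cnd_lift R D φ τ y v ω ?_ ?_
  · have h5 : MvPolynomial.aeval (fun i => κ (Pool.Agent.N89.HG.ev
        ((MvPolynomial.C : M →+* MvPolynomial (Fin (n + 1)) M).comp φ) h MvPolynomial.X i)) D ≠ 0 := by
      have h7 := aeval_hom κ (Pool.Agent.N89.HG.ev
        ((MvPolynomial.C : M →+* MvPolynomial (Fin (n + 1)) M).comp φ) h MvPolynomial.X) D
      intro h8
      exact h4 (h7.trans h8)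
    have h6 : (fun i => κ (Pool.Agent.N89.HG.ev
        ((MvPolynomial.C : M →+* MvPolynomial (Fin (n + 1)) M).comp φ) h MvPolynomial.X i)) =
        Pool.Agent.N89.HG.ev ((C : M →+* M[X]).comp φ) h (pt y v) := by
      funext i
      rw [ev_map, hc, hx]
    rw [h6] at h5
    exact h5
  · rw [rg_map, hc, hx] at h3
    have h4 : (fun j => κ (MvPolynomial.C (ω j))) = fun j => C (ω j) := by
      funext j
      simp [hκ]
    rw [h4] at h3
    exact h3

end Pool.Agent.N89.HB
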