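import Pool.Agent.N89.HG.Stm

/-!
# Project HB (helper89): random maps `φ_c : G → ℙ^n` from semiabelian varieties avoid all thin sets, over
all finite extensions of a number field `K` which is not totally real. Statements of the tasks.
-/

set_option autoImplicit false

namespace Pool.Agent.N89.HB

open Polynomial NumberField Pool.Agent.N89.HX Pool.Agent.N89.HG

/-- the field of rational functions in `k` variables over (the fraction field of) `M` -/
abbrev Fr (k : ℕ) (M : Type) [CommRing M] [IsDomain M] : Type := FractionRing (MvPolynomial (Fin k) M)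

/-- the polynomial `h(T; X)` over the field `M(T)`, the coefficients mapped by `φ` -/
noncomputable def gpol {O M : Type} [CommRing O] [CommRing M] [IsDomain M] (φ : O →+* M) {k e : ℕ}
    (h : Fin (e + 1) → MvPolynomial (Fin k) O) : (Fr k M)[X] :=
  ∑ i : Fin (e + 1), C (algebraMap (MvPolynomial (Fin k) M) (Fr k M) (MvPolynomial.map φ (h i))) *
    X ^ (i : ℕ)

/-- the embedding of `𝓞 L` in the algebraic closure of `L` -/
noncomputable def toA (L : Type) [Field L] : 𝓞 L →+* AlgebraicClosure L :=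
  (algebraMap L (AlgebraicClosure L)).comp (algebraMap (𝓞 L) L)

/-- the automorphisms of the algebraic closure of `E` over `E` -/
abbrev ClAut (E : Type) [Field E] : Type := AlgebraicClosure E ≃ₐ[E] AlgebraicClosure E

/-- CO: finitely many rational functions over `AlgebraicClosure L` are defined over a number field -/
def S_CO : Prop := ∀ (L : Type) [Field L] [NumberField L] (k m : ℕ)
  (a : Fin m → Fr k (AlgebraicClosure L)),
  ∃ (L' : Type) (_ : Field L') (_ : NumberField L') (_ : Algebra L L')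
    (j : L' →ₐ[L] AlgebraicClosure L) (ι : Fr k (𝓞 L') →+* Fr k (AlgebraicClosure L)),
    (∀ p : MvPolynomial (Fin k) (𝓞 L'), ι (algebraMap (MvPolynomial (Fin k) (𝓞 L')) (Fr k (𝓞 L')) p) =
      algebraMap (MvPolynomial (Fin k) (AlgebraicClosure L)) (Fr k (AlgebraicClosure L))
        (MvPolynomial.map ((j : L' →+* AlgebraicClosure L).comp (algebraMap (𝓞 L') L')) p)) ∧
    ∀ i, a i ∈ Set.range ι

/-- CEX: the geometric Galois group `𝒢` of a geometrically irreducible `h(T; X)`, and a number field `L'`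
such that the Galois group over `L'(T)` is contained in `𝒢` -/
def S_CEX : Prop := ∀ (L : Type) [Field L] [NumberField L] (k e : ℕ)
  (h : Fin (e + 1) → MvPolynomial (Fin k) (𝓞 L)), 1 ≤ e → h (Fin.last e) ≠ 0 →
  Irreducible (gpol (toA L) h) →
  ∃ (L' : Type) (_ : Field L') (_ : NumberField L') (_ : Algebra L L')
    (_ : L' →ₐ[L] AlgebraicClosure L) (𝒢 : Subgroup (Equiv.Perm (Fin e))),
    (∀ i i', ∃ σ ∈ 𝒢, σ i = i') ∧
    (∃ x : Fin e → AlgebraicClosure (Fr k (𝓞 L')),
      Roots (algebraMap (Fr k (𝓞 L')) (AlgebraicClosure (Fr k (𝓞 L'))))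
        (fun i => algebraMap (MvPolynomial (Fin k) (𝓞 L')) (Fr k (𝓞 L'))
          (MvPolynomial.map (algebraMap (𝓞 L) (𝓞 L')) (h i))) x ∧
      ∀ τ : ClAut (Fr k (𝓞 L')), ∃ σ ∈ 𝒢, ∀ i, τ (x i) = x (σ i)) ∧
    ∃ x : Fin e → AlgebraicClosure (Fr k (AlgebraicClosure L)),
      Roots (algebraMap (Fr k (AlgebraicClosure L)) (AlgebraicClosure (Fr k (AlgebraicClosure L))))
        (fun i => algebraMap (MvPolynomial (Fin k) (AlgebraicClosure L)) (Fr k (AlgebraicClosure L))
          (MvPolynomial.map (toA L) (h i))) x ∧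
      ∀ σ ∈ 𝒢, ∃ τ : ClAut (Fr k (AlgebraicClosure L)), ∀ i, τ (x i) = x (σ i)

/-- INT: a polynomial which takes values in a subfield at all natural numbers is defined over the
subfield -/
def S_INT : Prop := ∀ (E F : Type) [Field E] [CharZero E] [Field F] [Algebra E F] (g : F[X]),
  (∀ n : ℕ, g.eval (n : F) ∈ Set.range (algebraMap E F)) → ∃ g' : E[X], g'.map (algebraMap E F) = g

/-- SUB: monic divisors of a split polynomial -/
def S_SUB : Prop := ∀ (W : Type) [Field W] (N : ℕ) (θ : Fin N → W) (g : W[X]), g.Monic →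
  g ∣ ∏ i, (X - C (θ i)) → ∃ S : Finset (Fin N), g = ∏ i ∈ S, (X - C (θ i))

/-- EXT: a homomorphism to an algebraically closed field extends to integral extensions -/
def S_EXT : Prop := ∀ (A B W : Type) [CommRing A] [CommRing B] [Algebra A B]
  [Algebra.IsIntegral A B] [FaithfulSMul A B] [Field W] [IsAlgClosed W] (ρ : A →+* W),
  ∃ κ : B →+* W, κ.comp (algebraMap A B) = ρ

/-- BRT: Bertini's theorem on generic lines, for a monic irreducible polynomial over `M[T_0, …, T_n]`,
`M` algebraically closed of characteristic zero -/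
def S_BRT : Prop := ∀ (M : Type) [Field M] [IsAlgClosed M] [CharZero M] (n : ℕ)
  (f : (MvPolynomial (Fin (n + 1)) M)[X]), f.Monic →
  Irreducible (f.map (algebraMap (MvPolynomial (Fin (n + 1)) M) (Fr (n + 1) M))) →
  ∀ D : MvPolynomial (Fin (n + 1)) M, D ≠ 0 → ∃ y v : Fin (n + 1) → M,
    Irreducible (f.map ((MvPolynomial.aeval (pt y v) :
      MvPolynomial (Fin (n + 1)) M →ₐ[M] M[X]) : MvPolynomial (Fin (n + 1)) M →+* M[X])) ∧
    MvPolynomial.aeval (pt y v) D ≠ 0

/-- QIR: `F T_0 X² - F T_1` is irreducible over `M(T)` -/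
def S_QIR : Prop := ∀ (M : Type) [Field M] (n : ℕ) (F : MvPolynomial (Fin (n + 2)) M), F ≠ 0 →
  Irreducible (gpol (RingHom.id M) (![- (F * MvPolynomial.X 1), 0, F * MvPolynomial.X 0] :
    Fin (2 + 1) → MvPolynomial (Fin (n + 2)) M))

end Pool.Agent.N89.HB
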